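import Pool.Agent.P.MP_08fd93_co.FU.Z1

/-! The span lemma: strict edges of the first path under an inner vertex that spans them. -/

set_option autoImplicit false

namespace Pool.Agent.P.MP_08fd93_co.FS

open OV FU OV.PkStp4aP

variable {W : Type} {H : SimpleGraph W}

/-- `b` is seen by an inner vertex that also sees `X` at or before `p`. -/
def VR (H : SimpleGraph W) (d : DD W) (p b : W) : Prop :=
  b ∈ d.X ∧ ∃ w ∈ d.I, H.Adj w b ∧ ∃ a ∈ d.X, d.ρ a ≤ d.ρ p ∧ H.Adj w a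

/-- `b` is the end of a rung. -/
def RR (H : SimpleGraph W) (d : DD W) (b : W) : Prop := b ∈ d.X ∧ ∃ y ∈ d.Y, H.Adj b y

/-- An inner vertex that sees `X` before `p` and strictly after `p'` lies on the path of the main
step. -/
theorem mem_tau {s : SD W} (P : Stp H s) (R : Reg H s) {w a b : W} (hw : w ∈ s.d.I)
    (ha : a ∈ s.d.X) (la : s.d.ρ a ≤ s.d.ρ s.p) (wa : H.Adj w a) (hb : b ∈ s.d.X)
    (lb : s.d.ρ s.p' < s.d.ρ b) (wb : H.Adj w b) : w ∈ s.τ := by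
  by_contra ht
  have D := P.disc
  have lt := P.lt
  have iX : ∀ x ∈ s.d.X, x ∉ s.d.I := fun x hx k => k (Or.inr (Or.inl hx))
  have key : ∀ k : Fin 4, k = 0 ∨ k = 1 ∨ k = 2 ∨ k = 3 := by decide
  rcases key (s.lab w) with k | k | k | k
  · rcases R.n0 ⟨_, ⟨hw, ht, k⟩, wb.symm⟩ with r | (r | r) | r
    · exact iX _ hb r.1
    · have := r.2
      omega
    · exact D.xy hb r.1
    · exact iX _ hb (P.ti r)
  · rcases R.n1 ⟨_, ⟨hw, ht, k⟩, wa.symm⟩ with r | (r | r) | r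
    · exact iX _ ha r.1
    · have := r.2
      omega
    · exact D.xy ha r.1
    · exact iX _ ha (P.ti r)
  · rcases R.n2 ⟨_, ⟨hw, ht, k⟩, wb.symm⟩ with r | r | r | r
    · exact iX _ hb r.1
    · rw [r] at lb
      omega
    · rw [r] at lb
      omega
    · exact iX _ hb (r ▸ P.ti P.pt.ha)
  · rcases R.n3 ⟨_, ⟨hw, ht, k⟩, wa.symm⟩ with r | r | r | r | r
    · exact iX _ ha r.1
    · exact D.xy ha r.1
    · exact iX _ ha (r ▸ P.ti P.pt.hb)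
    · exact D.xy ha (r ▸ P.hl)
    · exact D.xy ha (r ▸ P.hj)

/-- The edge `p p'` has an inner apex if an inner vertex spans it. -/
theorem apex_in (hP : Pl H Set.univ) {d : DD W} (D : Disc H d) {p p' b : W} (hp : p ∈ d.X)
    (hp' : p' ∈ d.X) (lt : d.ρ p < d.ρ p') (pp : H.Adj p p') (h : VR H d p b)
    (lb : d.ρ p' < d.ρ b) : ∃ z ∈ d.I, H.Adj z p ∧ H.Adj z p' := by
  obtain ⟨z, a1, a2, hz | hz⟩ := PkStp1P.apex0 hP D hp hp' lt pp
  · exact ⟨z, hz, a1, a2⟩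
  obtain ⟨hb, w, hw, wb, a, ha, la, wa⟩ := h
  exact absurd ⟨⟨w, rfl, wa.symm⟩, ⟨w, rfl, wb.symm⟩⟩
    (D.theta hP hp' hz (T := ∅) (E := {w}) (Set.empty_subset _) isConn_empty (Or.inl a2.symm)
      (by rintro _ rfl; exact hw) (isConn_single w) (Set.disjoint_empty _) (x := a) (y := b)
      (Or.inl ⟨ha, by omega⟩) (Or.inl ⟨hb, lb⟩)).2

/-- In the right disc of the main step a virtual rung is a rung. -/
theorem rungM {s : SD W} (P : Stp H s) (R : Reg H s) {b : W} (lb : s.d.ρ s.p' < s.d.ρ b)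
    (h : VR H s.d s.p b ∨ RR H s.d b) : b ∈ s.dM.X ∧ ∃ y ∈ s.dM.Y, H.Adj b y ∧
      (VR H s.d s.p b → y ∈ s.τ) := by
  by_cases k : VR H s.d s.p b
  · obtain ⟨hb, w, hw, wb, a, ha, la, wa⟩ := k
    have ht := mem_tau P R hw ha la wa hb lb wb
    exact ⟨⟨hb, lb.le⟩, w, Or.inl ht, wb.symm, fun _ => ht⟩
  · obtain ⟨hb, y, hy, a⟩ := h.resolve_left k
    exact ⟨⟨hb, lb.le⟩, y, Or.inr (R.r1 b ⟨hb, lb.le⟩ y hy a), a, fun j => absurd j k⟩

/-- Edges of `X` after `p'` that are separated by real or virtual rungs are admissible in the right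
disc. -/
theorem admM {s : SD W} (P : Stp H s) (R : Reg H s) {S : Set (Sym2 W)} (hS : S ⊆ PE H s.d.X)
    (hr : ∀ e ∈ S, ∀ x ∈ e, s.d.ρ s.p' ≤ s.d.ρ x)
    (hs : ∀ e ∈ S, ∀ e' ∈ S, e ≠ e' → ∃ b, (VR H s.d s.p b ∨ RR H s.d b) ∧
      (((∀ x ∈ e, s.d.ρ x ≤ s.d.ρ b) ∧ ∀ x ∈ e', s.d.ρ b ≤ s.d.ρ x) ∨
        ((∀ x ∈ e', s.d.ρ x ≤ s.d.ρ b) ∧ ∀ x ∈ e, s.d.ρ b ≤ s.d.ρ x))) : Adm H s.dM S := by
  have D := P.disc
  have sub : ∀ e ∈ S, e ∈ PE H s.dM.X := by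
    intro e he
    obtain ⟨u, hu, v, hv, a, rfl⟩ := hS he
    exact mem_PE.2 ⟨⟨hu, hr _ he u (Sym2.mem_mk_left _ _)⟩,
      ⟨hv, hr _ he v (Sym2.mem_mk_right _ _)⟩, a⟩
  have half : ∀ e ∈ S, ∀ e' ∈ S, ∀ b, (VR H s.d s.p b ∨ RR H s.d b) →
      (∀ x ∈ e, s.d.ρ x ≤ s.d.ρ b) → (∀ x ∈ e', s.d.ρ b ≤ s.d.ρ x) → Sep H s.dM e e' := by
    intro e he e' he' b hb h1 h2
    obtain ⟨u, hu, u', hu', -, l, rfl⟩ := pe_ord D.px (hS he)
    have k1 := hr _ he u (Sym2.mem_mk_left _ _)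
    have k2 := h1 u' (Sym2.mem_mk_right _ _)
    obtain ⟨m, y, hy, a, -⟩ := rungM P R (by omega) hb
    refine ⟨b, m, y, hy, a, fun x hx => Or.inl ⟨PE.ends (sub _ he) hx, ?_⟩,
      fun x hx => Or.inl ⟨PE.ends (sub _ he') hx, ?_⟩⟩
    · rw [rM_not (tauX P (PE.ends (hS he) hx)), rM_not (tauX P m.1)]
      exact h1 x hx
    · rw [rM_not (tauX P (PE.ends (hS he') hx)), rM_not (tauX P m.1)]
      exact h2 x hx
  refine ⟨fun e he => Or.inl (sub e he), fun e he e' he' hne => ?_⟩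
  obtain ⟨b, hb, k | k⟩ := hs e he e' he' hne
  · exact Or.inl (half e he e' he' b hb k.1 k.2)
  · exact Or.inr (half e' he' e he b hb k.1 k.2)

/-- The landing edge may be added. -/
theorem admM_land {s : SD W} (P : Stp H s) (R : Reg H s) {S : Set (Sym2 W)}
    (hS : S ⊆ PE H s.d.X) (hr : ∀ e ∈ S, ∀ x ∈ e, s.d.ρ s.p' ≤ s.d.ρ x) (A : Adm H s.dM S)
    (hl : ∀ e ∈ S, (∃ b, VR H s.d s.p b ∧ ∀ x ∈ e, s.d.ρ x ≤ s.d.ρ b) ∨
      ∃ b, RR H s.d b ∧ s.d.ρ s.p' ≤ s.d.ρ b ∧ ∀ x ∈ e, s.d.ρ b ≤ s.d.ρ x) :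
    Adm H s.dM (insert s(s.v, s.qj) S) := by
  have D := P.disc
  have h1 : s(s.v, s.qj) ∈ PE H s.dM.Y :=
    mem_PE.2 ⟨Or.inl P.pt.hb, Or.inr ⟨P.hj, le_rfl⟩, P.vj⟩
  have rv : s.dM.ρ s.v = s.d.ρ s.qj - 1 := by
    rw [rM_tau P.pt.hb]
    omega
  have rj : s.dM.ρ s.qj = s.d.ρ s.qj := rM_not (tauY P P.hj)
  have one : ∀ e ∈ S, Sep H s.dM e s(s.v, s.qj) ∨ Sep H s.dM s(s.v, s.qj) e := by
    intro e he
    have inX : ∀ x ∈ e, x ∈ s.dM.X := fun x hx => ⟨PE.ends (hS he) hx, hr e he x hx⟩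
    rcases hl e he with ⟨b, hb, k⟩ | ⟨b, ⟨hb, y, hy, a⟩, lb, k⟩
    · obtain ⟨u, hu, u', hu', -, l, rfl⟩ := pe_ord D.px (hS he)
      have k1 := hr _ he u (Sym2.mem_mk_left _ _)
      have k2 := k u' (Sym2.mem_mk_right _ _)
      obtain ⟨m, y, hy, a, ht⟩ := rungM P R (by omega) (Or.inl hb)
      have ht := ht hb
      have ry := rM_tau ht
      have := P.pt.hi y ht
      refine Or.inl ⟨b, m, y, hy, a, fun x hx => Or.inl ⟨inX x hx, ?_⟩, fun x hx => ?_⟩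
      · rw [rM_not (tauX P (PE.ends (hS he) hx)), rM_not (tauX P m.1)]
        exact k x hx
      · refine Or.inr ⟨PE.ends h1 hx, ?_⟩
        rcases Sym2.mem_iff.1 hx with rfl | rfl <;> omega
    · have my := R.r1 b ⟨hb, lb⟩ y hy a
      have ry : s.dM.ρ y = s.d.ρ y := rM_not (tauY P hy)
      have := my.2
      refine Or.inr ⟨b, ⟨hb, lb⟩, y, Or.inr my, a, fun x hx => Or.inr ⟨PE.ends h1 hx, ?_⟩,
        fun x hx => Or.inl ⟨inX x hx, ?_⟩⟩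
      · rcases Sym2.mem_iff.1 hx with rfl | rfl <;> omega
      · rw [rM_not (tauX P (PE.ends (hS he) hx)), rM_not (tauX P hb)]
        exact k x hx
  refine ⟨?_, ?_⟩
  · rintro e (rfl | he)
    exacts [Or.inr h1, A.1 he]
  · rintro e (rfl | he) e' (rfl | he') hne
    · exact absurd rfl hne
    · exact (one e' he').symm
    · exact one e he
    · exact A.2 e he e' he' hne

/-- The span lemma, general form: the edge `p p'` is strict together with edges of `X` after it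
that are separated by real rungs or by neighbours of inner vertices that also see `X` before `p`;
each of them lies before such a neighbour or after a real rung, or `Y` is a single vertex. -/
theorem spn (hP : Pl H Set.univ) (T : TA H) {d : DD W} (D : Disc H d) {p p' b0 : W}
    (hp : p ∈ d.X) (hp' : p' ∈ d.X) (lt : d.ρ p < d.ρ p') (pp : H.Adj p p')
    (h0 : VR H d p b0) (l0 : d.ρ p' < d.ρ b0) {S : Set (Sym2 W)} (hS : S ⊆ PE H d.X)
    (hr : ∀ e ∈ S, ∀ x ∈ e, d.ρ p' ≤ d.ρ x)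
    (hs : ∀ e ∈ S, ∀ e' ∈ S, e ≠ e' → ∃ b, (VR H d p b ∨ RR H d b) ∧
      (((∀ x ∈ e, d.ρ x ≤ d.ρ b) ∧ ∀ x ∈ e', d.ρ b ≤ d.ρ x) ∨
        ((∀ x ∈ e', d.ρ x ≤ d.ρ b) ∧ ∀ x ∈ e, d.ρ b ≤ d.ρ x)))
    (hl : d.a' = d.b' ∨ ∀ e ∈ S, (∃ b, VR H d p b ∧ ∀ x ∈ e, d.ρ x ≤ d.ρ b) ∨
      ∃ b, RR H d b ∧ d.ρ p' ≤ d.ρ b ∧ ∀ x ∈ e, d.ρ b ≤ d.ρ x) :
    ∃ o, Out H d (insert s(p, p') S) o := by
  obtain ⟨z, hz, a1, a2⟩ := apex_in hP D hp hp' lt pp h0 l0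
  obtain ⟨s, rfl, rfl, rfl, -, P, R, dm, -⟩ := step_z hP D hp hp' lt pp hz a1 a2
  have A := admM P R hS hr hs
  rcases hl with hY | hl
  · have e1 : s.d.Y = {s.d.b'} := Pth.eq_single (ρ := s.d.ρ) (by have := D.py; rwa [hY] at this)
    have el : s.ql = s.d.b' := by simpa [e1] using P.hl
    have ej : s.qj = s.d.b' := by simpa [e1] using P.hj
    obtain ⟨o1, O1⟩ := T s.dM S dm A
    obtain ⟨u, B⟩ := pa_of_eq P R dm O1.shp (ej ▸ O1.shp.py.hb) (el.trans ej.symm)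
    refine step_std hP T B O1 (fun k => absurd (el.trans ej.symm) k) ?_
    rintro e (rfl | he)
    · exact Or.inl rfl
    · exact Or.inr ⟨he, Or.inl (hS he)⟩
  · obtain ⟨o1, O1⟩ := T s.dM _ dm (admM_land P R hS hr A hl)
    refine step_std hP T (pa_of_strict P R dm O1.shp (Or.inl rfl)) O1 (fun _ => Or.inl rfl) ?_
    rintro e (rfl | he)
    · exact Or.inl rfl
    · exact Or.inr ⟨Or.inr he, Or.inl (hS he)⟩

/-- The span lemma for two edges in order. -/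
theorem sp_ord (hP : Pl H Set.univ) (T : TA H) {d : DD W} (D : Disc H d) {w a b p p' r r' : W}
    (hw : w ∈ d.I) (ha : a ∈ d.X) (hb : b ∈ d.X) (wa : H.Adj w a) (wb : H.Adj w b)
    (hp : p ∈ d.X) (hp' : p' ∈ d.X) (hr : r ∈ d.X) (hr' : r' ∈ d.X) (pp : H.Adj p p')
    (rr : H.Adj r r') (l0 : d.ρ a ≤ d.ρ p) (l1 : d.ρ p < d.ρ p') (l2 : d.ρ p' ≤ d.ρ r)
    (l3 : d.ρ r < d.ρ r') (l4 : d.ρ r' ≤ d.ρ b) : ∃ o, Out H d {s(p, p'), s(r, r')} o := by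
  have V : VR H d p b := ⟨hb, w, hw, wb, a, ha, l0, wa⟩
  refine spn hP T D hp hp' l1 pp V (by omega) (S := {s(r, r')}) ?_ ?_ ?_ (Or.inr ?_)
  · rintro _ rfl
    exact mem_PE.2 ⟨hr, hr', rr⟩
  · rintro _ rfl x hx
    rcases Sym2.mem_iff.1 hx with rfl | rfl <;> omega
  · rintro _ rfl _ rfl hne
    exact absurd rfl hne
  · rintro _ rfl
    refine Or.inl ⟨b, V, fun x hx => ?_⟩
    rcases Sym2.mem_iff.1 hx with rfl | rfl <;> omega

/-- The span lemma: two edges of `X` between two neighbours of a vertex `w` of the interior or of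
`Y` are strict. -/
theorem sp (hP : Pl H Set.univ) (T : TA H) {d : DD W} (D : Disc H d) {w a b : W}
    (hw : w ∈ d.I ∨ w ∈ d.Y) (ha : a ∈ d.X) (hb : b ∈ d.X) (wa : H.Adj w a) (wb : H.Adj w b)
    {e e' : Sym2 W} (he : e ∈ PE H d.X) (he' : e' ∈ PE H d.X)
    (h : ∀ x, x ∈ e ∨ x ∈ e' → d.ρ a ≤ d.ρ x ∧ d.ρ x ≤ d.ρ b) : ∃ o, Out H d {e, e'} o := by
  rcases hw with hw | hw
  swap
  · exact tp hP T D (admP_pair (Or.inl he) (Or.inl he') (Or.inr (Or.inl (Or.inl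
      ⟨a, ha, b, hb, w, hw, wa.symm, wb.symm,
        fun x hx => ⟨hx.elim (PE.ends he) (PE.ends he'), h x hx⟩⟩))))
  obtain ⟨p, hp, p', hp', pp, l, rfl⟩ := pe_ord D.px he
  obtain ⟨r, hr, r', hr', rr, l', rfl⟩ := pe_ord D.px he'
  have k1 := h p (Or.inl (Sym2.mem_mk_left _ _))
  have k2 := h p' (Or.inl (Sym2.mem_mk_right _ _))
  have k3 := h r (Or.inr (Sym2.mem_mk_left _ _))
  have k4 := h r' (Or.inr (Sym2.mem_mk_right _ _))
  rcases lt_trichotomy (d.ρ p) (d.ρ r) with k | k | k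
  · have := D.px.nb hp hp' pp hr
    exact sp_ord hP T D hw ha hb wa wb hp hp' hr hr' pp rr k1.1 l (by omega) l' k4.2
  · obtain rfl : p = r := D.px.inj _ hp _ hr k
    obtain rfl : p' = r' := D.px.up_eq hp hp' hr' pp rr l l'
    rw [Set.pair_eq_singleton]
    exact T d _ D (Adm.single (Or.inl he))
  · have := D.px.nb hr hr' rr hp
    rw [Set.pair_comm]
    exact sp_ord hP T D hw ha hb wa wb hr hr' hp hp' rr pp k3.1 l' (by omega) l k2.2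

/-- Three edges in order: `w` sees `X` before the first edge, between the second and the third,
and after the third. -/
theorem sp3 (hP : Pl H Set.univ) (T : TA H) {d : DD W} (D : Disc H d)
    {w a b b' p p' r r' t t' : W} (hw : w ∈ d.I ∨ w ∈ d.Y) (ha : a ∈ d.X) (hb : b ∈ d.X)
    (hb' : b' ∈ d.X) (wa : H.Adj w a) (wb : H.Adj w b) (wb' : H.Adj w b') (hp : p ∈ d.X)
    (hp' : p' ∈ d.X) (hr : r ∈ d.X) (hr' : r' ∈ d.X) (ht : t ∈ d.X) (ht' : t' ∈ d.X)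
    (pp : H.Adj p p') (rr : H.Adj r r') (tt : H.Adj t t') (l0 : d.ρ a ≤ d.ρ p)
    (l1 : d.ρ p < d.ρ p') (l2 : d.ρ p' ≤ d.ρ r) (l3 : d.ρ r < d.ρ r') (l4 : d.ρ r' ≤ d.ρ b)
    (l5 : d.ρ b ≤ d.ρ t) (l6 : d.ρ t < d.ρ t') (l7 : d.ρ t' ≤ d.ρ b') :
    ∃ o, Out H d {s(p, p'), s(r, r'), s(t, t')} o := by
  have m1 : s(p, p') ∈ PE H d.X := mem_PE.2 ⟨hp, hp', pp⟩
  have m2 : s(r, r') ∈ PE H d.X := mem_PE.2 ⟨hr, hr', rr⟩
  have m3 : s(t, t') ∈ PE H d.X := mem_PE.2 ⟨ht, ht', tt⟩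
  have b1 : ∀ x ∈ s(p, p'), d.ρ a ≤ d.ρ x ∧ d.ρ x ≤ d.ρ b := fun x hx => by
    rcases Sym2.mem_iff.1 hx with rfl | rfl <;> omega
  have b2 : ∀ x ∈ s(r, r'), d.ρ p' ≤ d.ρ x ∧ d.ρ x ≤ d.ρ b := fun x hx => by
    rcases Sym2.mem_iff.1 hx with rfl | rfl <;> omega
  have b3 : ∀ x ∈ s(t, t'), d.ρ b ≤ d.ρ x ∧ d.ρ x ≤ d.ρ b' := fun x hx => by
    rcases Sym2.mem_iff.1 hx with rfl | rfl <;> omega
  rcases hw with hw | hw
  · have V : VR H d p b := ⟨hb, w, hw, wb, a, ha, l0, wa⟩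
    have V' : VR H d p b' := ⟨hb', w, hw, wb', a, ha, l0, wa⟩
    refine spn hP T D hp hp' l1 pp V (by omega) (S := {s(r, r'), s(t, t')}) ?_ ?_ ?_ (Or.inr ?_)
    · rintro _ (rfl | rfl)
      exacts [m2, m3]
    · rintro _ (rfl | rfl) x hx
      · exact (b2 x hx).1
      · have := (b3 x hx).1
        omega
    · rintro _ (rfl | rfl) _ (rfl | rfl) hne
      · exact absurd rfl hne
      · exact ⟨b, Or.inl V, Or.inl ⟨fun x hx => (b2 x hx).2, fun x hx => (b3 x hx).1⟩⟩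
      · exact ⟨b, Or.inl V, Or.inr ⟨fun x hx => (b2 x hx).2, fun x hx => (b3 x hx).1⟩⟩
      · exact absurd rfl hne
    · rintro _ (rfl | rfl)
      · exact Or.inl ⟨b, V, fun x hx => (b2 x hx).2⟩
      · exact Or.inl ⟨b', V', fun x hx => (b3 x hx).2⟩
  · have s13 : SS H d s(p, p') s(t, t') := Or.inl ⟨b, hb, w, hw, wb.symm,
      fun x hx => Or.inl ⟨PE.ends m1 hx, (b1 x hx).2⟩,
      fun x hx => Or.inl ⟨PE.ends m3 hx, (b3 x hx).1⟩⟩
    have s23 : SS H d s(r, r') s(t, t') := Or.inl ⟨b, hb, w, hw, wb.symm,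
      fun x hx => Or.inl ⟨PE.ends m2 hx, (b2 x hx).2⟩,
      fun x hx => Or.inl ⟨PE.ends m3 hx, (b3 x hx).1⟩⟩
    have f12 : Pr H d s(p, p') s(r, r') := Or.inl ⟨a, ha, b, hb, w, hw, wa.symm, wb.symm,
      fun x hx => by
        rcases hx with hx | hx
        · exact ⟨PE.ends m1 hx, b1 x hx⟩
        · have := b2 x hx
          exact ⟨PE.ends m2 hx, by omega, this.2⟩⟩
    refine tp hP T D ⟨?_, ?_, ?_⟩
    · rintro _ (rfl | rfl | rfl)
      exacts [Or.inl m1, Or.inl m2, Or.inl m3]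
    · rintro _ (rfl | rfl | rfl) _ (rfl | rfl | rfl) hne
      exacts [absurd rfl hne, Or.inr (Or.inl f12), Or.inl s13, Or.inr (Or.inl f12.symm),
        absurd rfl hne, Or.inl s23, Or.inl s13.symm, Or.inl s23.symm, absurd rfl hne]
    · rintro _ (rfl | rfl | rfl) _ (rfl | rfl | rfl) _ (rfl | rfl | rfl) h1 h2 h3 <;>
        first
          | exact absurd rfl h1 | exact absurd rfl h2 | exact absurd rfl h3
          | exact Or.inl s13 | exact Or.inl s23 | exact Or.inl s13.symm | exact Or.inl s23.symm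
          | exact Or.inr (Or.inl s13) | exact Or.inr (Or.inl s23)

end Pool.Agent.P.MP_08fd93_co.FS
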