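import Pool.Agent.P.MP_08fd93_co.FZ2.Root

/-! A better root in depth two: no neighbour of the root sees both points of index `-2`. -/

set_option autoImplicit false

namespace Pool.Agent.P.MP_08fd93_co.FS

open OV FZ FZ2 PkDNP

variable {J : Type} {Γ : SimpleGraph (Vx J)}

theorem walk_le (hF : Fine Γ) {l : ℤ → Vx J} (h : ∀ i, Γ.Adj (l i) (l (i + 1))) (i j : ℤ) :
    Γ.dist (l i) (l j) ≤ (i - j).natAbs := by
  have key : ∀ (i : ℤ) (k : ℕ), Γ.dist (l i) (l (i + k)) ≤ k := by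
    intro i k
    induction k with
    | zero => simp
    | succ k ih =>
      have h1 := tri hF (l i) (l (i + k)) (l (i + k + 1))
      have h2 : Γ.dist (l (i + k)) (l (i + k + 1)) = 1 := SimpleGraph.dist_eq_one_iff_adj.2 (h _)
      have e : i + ((k + 1 : ℕ) : ℤ) = i + k + 1 := by push_cast; ring
      rw [e]
      omega
  rcases le_total i j with hij | hij
  · obtain ⟨k, rfl⟩ : ∃ k : ℕ, j = i + k := ⟨(j - i).toNat, by omega⟩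
    have := key i k
    omega
  · obtain ⟨k, rfl⟩ : ∃ k : ℕ, i = j + k := ⟨(i - j).toNat, by omega⟩
    have := key j k
    rw [SimpleGraph.dist_comm] at this
    omega

/-- The points of index `-1` modulo the period are replaced by the translates of `z`. -/
def rep (n : ℤ) (c : ℤ × ℤ) (l : ℤ → Vx J) (z : Vx J) (i : ℤ) : Vx J :=
  if n ∣ i + 1 then tr (((i + 1) / n) • c) z else l i

theorem rep_hit {n : ℤ} (hn : n ≠ 0) (c : ℤ × ℤ) (l : ℤ → Vx J) (z : Vx J) {i q : ℤ}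
    (h : i + 1 = n * q) : rep n c l z i = tr (q • c) z := by
  rw [rep, if_pos ⟨q, h⟩, h, Int.mul_ediv_cancel_left _ hn]

theorem rep_miss {n : ℤ} (c : ℤ × ℤ) (l : ℤ → Vx J) (z : Vx J) {i : ℤ} (h : ¬ n ∣ i + 1) :
    rep n c l z i = l i := if_neg h

theorem rep_ln (hF : Fine Γ) (hN : Nrm (OV.DL Γ)) {c : ℤ × ℤ} (hc : c ≠ 0) {l : ℤ → Vx J}
    (h : FZ2.Ln Γ c l) {z : Vx J} (a1 : Γ.Adj z (l 0)) (a2 : Γ.Adj z (l (-2))) :
    FZ2.Ln Γ c (rep (OV.DL Γ c) c l z) := by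
  have h3 := hN.ge c hc
  have hn : (OV.DL Γ c : ℤ) ≠ 0 := by omega
  have nd : ∀ i : ℤ, (OV.DL Γ c : ℤ) ∣ i → ¬ (OV.DL Γ c : ℤ) ∣ i + 1 := fun i h1 h2 => by
    have := Int.le_of_dvd one_pos ((Int.dvd_add_right h1).1 h2)
    omega
  have adj : ∀ i, Γ.Adj (rep (OV.DL Γ c) c l z i) (rep (OV.DL Γ c) c l z (i + 1)) := by
    intro i
    by_cases k1 : (OV.DL Γ c : ℤ) ∣ i + 1
    · obtain ⟨q, hq⟩ := id k1
      rw [rep_hit hn c l z hq, rep_miss c l z (nd _ k1),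
        show i + 1 = 0 + q * OV.DL Γ c by rw [hq]; ring, l_mul h.per]
      exact hF.inv _ _ _ a1
    · rw [rep_miss c l z k1]
      by_cases k2 : (OV.DL Γ c : ℤ) ∣ i + 1 + 1
      · obtain ⟨q, hq⟩ := id k2
        rw [rep_hit hn c l z hq, show i = -2 + q * OV.DL Γ c by linarith, l_mul h.per]
        exact hF.inv _ _ _ a2.symm
      · rw [rep_miss c l z k2]
        exact h.geo.adj i
  have per : ∀ i, rep (OV.DL Γ c) c l z (i + OV.DL Γ c) = tr c (rep (OV.DL Γ c) c l z i) := by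
    intro i
    by_cases k1 : (OV.DL Γ c : ℤ) ∣ i + 1
    · obtain ⟨q, hq⟩ := id k1
      rw [rep_hit hn c l z hq, rep_hit hn c l z (q := q + 1) (by linarith), OV.tr_tr, add_smul,
        one_smul]
    · rw [rep_miss c l z k1, rep_miss c l z, h.per]
      intro k2
      refine k1 ?_
      rw [add_right_comm] at k2
      exact (Int.dvd_add_left (dvd_refl _)).1 k2
  exact ⟨⟨adj, PkCon1P.geod hF hN (by omega) per (walk_le hF adj)⟩, per⟩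

section

variable {η : ℤ × ℤ →+ ℤ}

theorem gap (hη : ∀ a, a ≠ 0 → η a + 2 ≤ (OV.DL Γ a : ℤ)) (x : Vx J) {a b : ℤ × ℤ}
    (hab : a ≠ b) : η b - η a + 2 ≤ Γ.dist (tr a x) (tr b x) := by
  have h1 := hη (b - a) (sub_ne_zero.2 hab.symm)
  have h2 := dl_le (Γ := Γ) (b - a) (tr a x)
  rw [OV.tr_tr, add_sub_cancel] at h2
  rw [map_sub] at h1
  omega

/-- Two lines do not meet twice at a distance that is a multiple of a period. -/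
theorem nomeet (hη : ∀ a, a ≠ 0 → η a + 2 ≤ (OV.DL Γ a : ℤ)) {c1 c2 : ℤ × ℤ} (hc : c1 ≠ c2)
    (h1 : (OV.DL Γ c1 : ℤ) = η c1 + 2) (h2 : (OV.DL Γ c2 : ℤ) = η c2 + 2) {l1 l2 : ℤ → Vx J}
    (L1 : FZ2.Ln Γ c1 l1) (L2 : FZ2.Ln Γ c2 l2) {s k : ℤ} (hk : k ≠ 0) (e : l1 s = l2 s) :
    l1 (s + k * OV.DL Γ c1) ≠ l2 (s + k * OV.DL Γ c1) := by
  intro e'
  have ne : k • c1 ≠ k • c2 := fun h => hc (smul_right_injective _ hk h)
  have g1 := gap hη (l1 s) ne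
  have g2 := gap hη (l1 s) ne.symm
  rw [SimpleGraph.dist_comm] at g2
  have d := L2.geo.dist (s + k * OV.DL Γ c1) (s + k * OV.DL Γ c2)
  rw [← e', l_mul L1.per, l_mul L2.per, ← e] at d
  rw [map_zsmul, map_zsmul, smul_eq_mul, smul_eq_mul, d] at g1 g2
  have e1 : k * η c1 = k * OV.DL Γ c1 - 2 * k := by rw [h1]; ring
  have e2 : k * η c2 = k * OV.DL Γ c2 - 2 * k := by rw [h2]; ring
  omega

/-- A pair of independent classes of slack two of least total length. -/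
structure MinP (Γ : SimpleGraph (Vx J)) (η : ℤ × ℤ →+ ℤ) (c1 c2 : ℤ × ℤ) : Prop where
  hd : det c1 c2 ≠ 0
  h1 : (OV.DL Γ c1 : ℤ) = η c1 + 2
  h2 : (OV.DL Γ c2 : ℤ) = η c2 + 2
  mn : ∀ a b, det a b ≠ 0 → (OV.DL Γ a : ℤ) = η a + 2 → (OV.DL Γ b : ℤ) = η b + 2 →
    OV.DL Γ c1 + OV.DL Γ c2 ≤ OV.DL Γ a + OV.DL Γ b

theorem MinP.symm {c1 c2 : ℤ × ℤ} (M : MinP Γ η c1 c2) : MinP Γ η c2 c1 := by
  refine ⟨fun h => M.hd ?_, M.h2, M.h1, fun a b h ha hb => ?_⟩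
  · simp only [det] at h ⊢
    linarith
  · rw [add_comm]
    exact M.mn a b h ha hb

theorem MinP.ne {c1 c2 : ℤ × ℤ} (M : MinP Γ η c1 c2) : c1 ≠ c2 := by
  rintro rfl
  exact M.hd (by simp only [det]; ring)

theorem MinP.ne0 {c1 c2 : ℤ × ℤ} (M : MinP Γ η c1 c2) : c1 ≠ 0 := by
  rintro rfl
  exact M.hd (by simp [det])

theorem minP_ex {c1 c2 : ℤ × ℤ} (hd : det c1 c2 ≠ 0) (h1 : (OV.DL Γ c1 : ℤ) = η c1 + 2)
    (h2 : (OV.DL Γ c2 : ℤ) = η c2 + 2) : ∃ a b, MinP Γ η a b := by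
  classical
  have ex : ∃ n, ∃ a b, det a b ≠ 0 ∧ (OV.DL Γ a : ℤ) = η a + 2 ∧ (OV.DL Γ b : ℤ) = η b + 2 ∧
      OV.DL Γ a + OV.DL Γ b = n := ⟨_, c1, c2, hd, h1, h2, rfl⟩
  obtain ⟨a, b, k1, k2, k3, k4⟩ := Nat.find_spec ex
  exact ⟨a, b, k1, k2, k3, fun x y m1 m2 m3 => k4 ▸ Nat.find_min' ex ⟨x, y, m1, m2, m3, rfl⟩⟩

theorem short (hF : Fine Γ) (hN : Nrm (OV.DL Γ))
    (hη : ∀ a, a ≠ 0 → η a + 2 ≤ (OV.DL Γ a : ℤ)) {c1 c2 : ℤ × ℤ} (M : MinP Γ η c1 c2)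
    (le : OV.DL Γ c1 ≤ OV.DL Γ c2) {l1 l2 : ℤ → Vx J} (L1 : FZ2.Ln Γ c1 l1) (L2 : FZ2.Ln Γ c2 l2)
    (e : l1 0 = l2 0) : l1 (OV.DL Γ c1 - 1) ≠ l2 (OV.DL Γ c1 - 1) := by
  intro e'
  have d1 := L1.geo.dist (0 + OV.DL Γ c1) (OV.DL Γ c1 - 1)
  have d2 := L2.geo.dist (OV.DL Γ c1 - 1) (0 + OV.DL Γ c2)
  rw [L1.per] at d1
  rw [L2.per, ← e, ← e'] at d2
  have t := tri hF (tr c1 (l1 0)) (l1 (OV.DL Γ c1 - 1)) (tr c2 (l1 0))
  have k1 := hη (c2 - c1) (sub_ne_zero.2 M.ne.symm)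
  have k2 := dl_le (Γ := Γ) (c2 - c1) (tr c1 (l1 0))
  rw [OV.tr_tr, add_sub_cancel] at k2
  have k3 := map_sub η c2 c1
  have k4 := M.h1
  have k5 := M.h2
  have k6 := hN.ge c1 M.ne0
  have := M.mn c1 (c2 - c1) (fun h => M.hd (by
    simp only [det, Prod.fst_sub, Prod.snd_sub] at h ⊢
    linarith)) k4 (by omega)
  omega

/-- The better root for a least pair. -/
theorem rootM [Fintype J] (hJ : Nonempty J) (hG : Good Γ)
    (hη : ∀ a, a ≠ 0 → η a + 2 ≤ (OV.DL Γ a : ℤ)) {c1 c2 : ℤ × ℤ} (M : MinP Γ η c1 c2) :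
    ∃ l1 l2, FZ2.Ln Γ c1 l1 ∧ FZ2.Ln Γ c2 l2 ∧ l1 0 = l2 0 ∧ (∀ s t, s < 0 → l1 s ≠ l2 t ∨ 0 < t) ∧
      ∀ z, Γ.Adj z (l1 0) → Γ.Adj z (l1 (-2)) → ¬ Γ.Adj z (l2 (-2)) := by
  obtain ⟨hF, hN⟩ := all_Nrm J Γ hJ hG
  have g1 := hN.ge c1 M.ne0
  have g2 := hN.ge c2 M.symm.ne0
  obtain ⟨m1, m2, M1, M2, e0, hm⟩ := root2 hJ hG M.hd
  obtain ⟨L, ⟨L0, l1, l2, L1, L2, com, dis⟩, mx⟩ := Int.exists_greatest_of_bdd
    (P := fun L => 0 ≤ L ∧ ∃ l1 l2, FZ2.Ln Γ c1 l1 ∧ FZ2.Ln Γ c2 l2 ∧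
      (∀ i, 0 ≤ i → i ≤ L → l1 i = l2 i) ∧ ∀ s, s < 0 → l1 s ≠ l2 s)
    ⟨OV.DL Γ c1, fun L ⟨L0, l1, l2, L1, L2, com, _⟩ => by
      by_contra hn
      exact nomeet hη M.ne M.h1 M.h2 L1 L2 (s := 0) one_ne_zero (com 0 le_rfl L0)
        (com _ (by omega) (by omega))⟩
    ⟨0, le_rfl, m1, m2, M1, M2, fun i h h' => by rwa [le_antisymm h' h],
      fun s hs => (hm s s hs).resolve_right (by omega)⟩
  have e := com 0 le_rfl L0
  have sh : L + 2 ≤ OV.DL Γ c1 ∧ L + 2 ≤ OV.DL Γ c2 := by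
    by_contra hn
    rcases le_total (OV.DL Γ c1) (OV.DL Γ c2) with le | le
    · exact short hF hN hη M le L1 L2 e (com _ (by omega) (by omega))
    · exact short hF hN hη M.symm le L2 L1 e.symm (com _ (by omega) (by omega)).symm
  refine ⟨l1, l2, L1, L2, e, fun s t hs => ?_, fun z a0 a1 a2 => ?_⟩
  · by_contra hn
    push Not at hn
    have d1 := L1.geo.dist s 0
    have d2 := L2.geo.dist t 0
    rw [hn.1, e, d2] at d1
    obtain rfl : s = t := by omega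
    exact dis s hs hn.1
  have R1 := rep_ln hF hN M.ne0 L1 a0 a1
  have R2 := rep_ln hF hN M.symm.ne0 L2 (e ▸ a0) a2
  have hit : ∀ (c : ℤ × ℤ) (l : ℤ → Vx J), 3 ≤ OV.DL Γ c → rep (OV.DL Γ c) c l z (-1) = z :=
    fun c l h => by rw [rep_hit (by omega) c l z (q := 0) (by ring), zero_smul, OV.tr_zero]
  have miss : ∀ (n : ℕ) (i : ℤ), 0 ≤ i → i + 2 ≤ n → ¬ (n : ℤ) ∣ i + 1 := fun n i h h' k => by
    have := Int.le_of_dvd (by omega) k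
    omega
  have ez : rep (OV.DL Γ c1) c1 l1 z (-1) = rep (OV.DL Γ c2) c2 l2 z (-1) := by
    rw [hit _ _ g1, hit _ _ g2]
  have := mx (L + 1) ⟨by omega, _, _, R1.shift (-1), R2.shift (-1), fun i h h' => ?_,
    fun s hs es => ?_⟩
  · omega
  · rcases eq_or_lt_of_le h with rfl | h
    · simpa using ez
    · show rep _ _ _ _ _ = rep _ _ _ _ _
      rw [rep_miss _ _ _ (miss _ _ (by omega) (by omega)),
        rep_miss _ _ _ (miss _ _ (by omega) (by omega))]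
      exact com _ (by omega) (by omega)
  · replace es : rep (OV.DL Γ c1) c1 l1 z (s + -1) = rep (OV.DL Γ c2) c2 l2 z (s + -1) := es
    by_cases k1 : (OV.DL Γ c1 : ℤ) ∣ s + -1 + 1
    · obtain ⟨q, hq⟩ := k1
      refine nomeet hη M.ne M.h1 M.h2 R1 R2 (k := q) (by rintro rfl; omega) ez ?_
      rwa [show -1 + q * OV.DL Γ c1 = s + -1 by linarith]
    by_cases k2 : (OV.DL Γ c2 : ℤ) ∣ s + -1 + 1
    · obtain ⟨q, hq⟩ := k2
      refine nomeet hη M.symm.ne M.h2 M.h1 R2 R1 (k := q) (by rintro rfl; omega) ez.symm ?_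
      rw [show -1 + q * OV.DL Γ c2 = s + -1 by linarith]
      exact es.symm
    rw [rep_miss _ _ _ k1, rep_miss _ _ _ k2] at es
    exact dis _ (by omega) es

/-- The better root from any independent pair of slack two. -/
theorem root5 [Fintype J] (hJ : Nonempty J) (hG : Good Γ)
    (hη : ∀ a, a ≠ 0 → η a + 2 ≤ (OV.DL Γ a : ℤ)) {a b : ℤ × ℤ} (hd : det a b ≠ 0)
    (h1 : (OV.DL Γ a : ℤ) = η a + 2) (h2 : (OV.DL Γ b : ℤ) = η b + 2) :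
    ∃ c1 c2 l1 l2, det c1 c2 ≠ 0 ∧ (OV.DL Γ c1 : ℤ) = η c1 + 2 ∧
      (OV.DL Γ c2 : ℤ) = η c2 + 2 ∧ FZ2.Ln Γ c1 l1 ∧ FZ2.Ln Γ c2 l2 ∧ l1 0 = l2 0 ∧
      (∀ s t, s < 0 → l1 s ≠ l2 t ∨ 0 < t) ∧
      ∀ z, Γ.Adj z (l1 0) → Γ.Adj z (l1 (-2)) → ¬ Γ.Adj z (l2 (-2)) := by
  obtain ⟨c1, c2, M⟩ := minP_ex hd h1 h2
  obtain ⟨l1, l2, h⟩ := rootM hJ hG hη M
  exact ⟨c1, c2, l1, l2, M.hd, M.h1, M.h2, h⟩

end

end Pool.Agent.P.MP_08fd93_co.FS
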